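import Pool.Agent.NNr.R11_1_2_4.D0
import Pool.Agent.NNr.R11_1_2_4.D1
import Pool.Agent.NNr.R11_1_2_4.D2
import Pool.Agent.NNe.Slots

set_option linter.all false
set_option maxRecDepth 1000000
namespace Pool.Agent.NNr.R11_1_2_4

open Pool.Agent.NNe

def st1_17_0 : starCk (nat_lit 61) (nat_lit 9) (nat_lit 1) (nat_lit 4) (nat_lit 131) (nat_lit 623) (nat_lit 256) C1_17 = true := by decide +kernel
def sc1_17 : stCov (nat_lit 2) (nat_lit 623) (Rl.cons (nat_lit 623) (nat_lit 131) Rl.nil) C1_17 = true := by decide +kernel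
def wf1_18 : wfC (nat_lit 61) (nat_lit 9) C1_18 = true := by decide +kernel
def rf1_18 : rfCk (nat_lit 59) (nat_lit 5) (nat_lit 61) (nat_lit 9) (nat_lit 5) (nat_lit 262144) (nat_lit 18) TL1 CL0 CL1 = true := by decide +kernel
def st1_18_0 : starCk (nat_lit 61) (nat_lit 9) (nat_lit 1) (nat_lit 4) (nat_lit 120) (nat_lit 86) (nat_lit 1) C1_18 = true := by decide +kernel
def sc1_18 : stCov (nat_lit 0) (nat_lit 86) (Rl.cons (nat_lit 86) (nat_lit 120) Rl.nil) C1_18 = true := by decide +kernel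
def wf1_19 : wfC (nat_lit 61) (nat_lit 9) C1_19 = true := by decide +kernel
def rf1_19 : rfCk (nat_lit 59) (nat_lit 5) (nat_lit 61) (nat_lit 9) (nat_lit 5) (nat_lit 262144) (nat_lit 19) TL1 CL0 CL1 = true := by decide +kernel
def st1_19_0 : starCk (nat_lit 61) (nat_lit 9) (nat_lit 1) (nat_lit 4) (nat_lit 82) (nat_lit 258) (nat_lit 256) C1_19 = true := by decide +kernel
def sc1_19 : stCov (nat_lit 2) (nat_lit 258) (Rl.cons (nat_lit 258) (nat_lit 82) Rl.nil) C1_19 = true := by decide +kernel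
def wf1_20 : wfC (nat_lit 61) (nat_lit 9) C1_20 = true := by decide +kernel
def rf1_20 : rfCk (nat_lit 59) (nat_lit 5) (nat_lit 61) (nat_lit 9) (nat_lit 5) (nat_lit 262144) (nat_lit 20) TL1 CL0 CL1 = true := by decide +kernel
def st1_20_0 : starCk (nat_lit 61) (nat_lit 9) (nat_lit 1) (nat_lit 4) (nat_lit 112) (nat_lit 228) (nat_lit 16) C1_20 = true := by decide +kernel
def sc1_20 : stCov (nat_lit 1) (nat_lit 228) (Rl.cons (nat_lit 228) (nat_lit 112) Rl.nil) C1_20 = true := by decide +kernel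
def wf1_21 : wfC (nat_lit 61) (nat_lit 9) C1_21 = true := by decide +kernel
def rf1_21 : rfCk (nat_lit 59) (nat_lit 5) (nat_lit 61) (nat_lit 9) (nat_lit 5) (nat_lit 262144) (nat_lit 21) TL1 CL0 CL1 = true := by decide +kernel
def st1_21_0 : starCk (nat_lit 61) (nat_lit 9) (nat_lit 1) (nat_lit 4) (nat_lit 38) (nat_lit 98) (nat_lit 16) C1_21 = true := by decide +kernel
def sc1_21 : stCov (nat_lit 1) (nat_lit 98) (Rl.cons (nat_lit 98) (nat_lit 38) Rl.nil) C1_21 = true := by decide +kernel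
def ti1_0 : tileCk (nat_lit 61) (nat_lit 9) (nat_lit 2) (nat_lit 4) (nat_lit 340) (nat_lit 11) (nat_lit 23) ZL1_0 CL1 = true := by decide +kernel
def zl1_0 : zlOK (nat_lit 340) ZL1_0 = true := by decide +kernel
def ti1_1 : tileCk (nat_lit 61) (nat_lit 9) (nat_lit 2) (nat_lit 4) (nat_lit 340) (nat_lit 11) (nat_lit 23) ZL1_1 CL1 = true := by decide +kernel
def zl1_1 : zlOK (nat_lit 340) ZL1_1 = true := by decide +kernel
def tc1_0 : tiCov (nat_lit 1) (nat_lit 0) ZZ1 C1_0 = true := by decide +kernel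
def tc1_1 : tiCov (nat_lit 1) (nat_lit 1) ZZ1 C1_1 = true := by decide +kernel
def tc1_2 : tiCov (nat_lit 1) (nat_lit 2) ZZ1 C1_2 = true := by decide +kernel
def tc1_3 : tiCov (nat_lit 1) (nat_lit 3) ZZ1 C1_3 = true := by decide +kernel
def tc1_4 : tiCov (nat_lit 1) (nat_lit 4) ZZ1 C1_4 = true := by decide +kernel
def tc1_5 : tiCov (nat_lit 1) (nat_lit 5) ZZ1 C1_5 = true := by decide +kernel
def tc1_6 : tiCov (nat_lit 1) (nat_lit 6) ZZ1 C1_6 = true := by decide +kernel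
def tc1_7 : tiCov (nat_lit 1) (nat_lit 7) ZZ1 C1_7 = true := by decide +kernel
def tc1_8 : tiCov (nat_lit 1) (nat_lit 8) ZZ1 C1_8 = true := by decide +kernel
def tc1_17 : tiCov (nat_lit 1) (nat_lit 17) ZZ1 C1_17 = true := by decide +kernel
def tc1_18 : tiCov (nat_lit 1) (nat_lit 18) ZZ1 C1_18 = true := by decide +kernel
def tc1_19 : tiCov (nat_lit 1) (nat_lit 19) ZZ1 C1_19 = true := by decide +kernel
def tc1_20 : tiCov (nat_lit 1) (nat_lit 20) ZZ1 C1_20 = true := by decide +kernel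
def tc1_21 : tiCov (nat_lit 1) (nat_lit 21) ZZ1 C1_21 = true := by decide +kernel
def wf2_0 : wfC (nat_lit 59) (nat_lit 19) C2_0 = true := by decide +kernel
def rf2_0 : rfCk (nat_lit 61) (nat_lit 9) (nat_lit 59) (nat_lit 19) (nat_lit 9) (nat_lit 0) (nat_lit 0) TL2 CL1 CL2 = true := by decide +kernel
def st2_0_0 : starCk (nat_lit 59) (nat_lit 19) (nat_lit 1) (nat_lit 9) (nat_lit 11) (nat_lit 0) (nat_lit 16) C2_0 = true := by decide +kernel
def sc2_0 : stCov (nat_lit 1) (nat_lit 0) (Rl.cons (nat_lit 0) (nat_lit 11) Rl.nil) C2_0 = true := by decide +kernel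
def wf2_1 : wfC (nat_lit 59) (nat_lit 19) C2_1 = true := by decide +kernel
def rf2_1 : rfCk (nat_lit 61) (nat_lit 9) (nat_lit 59) (nat_lit 19) (nat_lit 9) (nat_lit 0) (nat_lit 1) TL2 CL1 CL2 = true := by decide +kernel
def st2_1_0 : starCk (nat_lit 59) (nat_lit 19) (nat_lit 1) (nat_lit 9) (nat_lit 15) (nat_lit 22) (nat_lit 256) C2_1 = true := by decide +kernel
def sc2_1 : stCov (nat_lit 2) (nat_lit 22) (Rl.cons (nat_lit 22) (nat_lit 15) Rl.nil) C2_1 = true := by decide +kernel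
def wf2_2 : wfC (nat_lit 59) (nat_lit 19) C2_2 = true := by decide +kernel
def rf2_2 : rfCk (nat_lit 61) (nat_lit 9) (nat_lit 59) (nat_lit 19) (nat_lit 9) (nat_lit 0) (nat_lit 2) TL2 CL1 CL2 = true := by decide +kernel
def st2_2_0 : starCk (nat_lit 59) (nat_lit 19) (nat_lit 1) (nat_lit 9) (nat_lit 5) (nat_lit 35) (nat_lit 256) C2_2 = true := by decide +kernel
def sc2_2 : stCov (nat_lit 2) (nat_lit 35) (Rl.cons (nat_lit 35) (nat_lit 5) Rl.nil) C2_2 = true := by decide +kernel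
def wf2_4 : wfC (nat_lit 59) (nat_lit 19) C2_4 = true := by decide +kernel
def rf2_4 : rfCk (nat_lit 61) (nat_lit 9) (nat_lit 59) (nat_lit 19) (nat_lit 9) (nat_lit 0) (nat_lit 4) TL2 CL1 CL2 = true := by decide +kernel
def st2_4_0 : starCk (nat_lit 59) (nat_lit 19) (nat_lit 1) (nat_lit 9) (nat_lit 9) (nat_lit 14) (nat_lit 1) C2_4 = true := by decide +kernel
def sc2_4 : stCov (nat_lit 0) (nat_lit 14) (Rl.cons (nat_lit 14) (nat_lit 9) Rl.nil) C2_4 = true := by decide +kernel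
def wf2_5 : wfC (nat_lit 59) (nat_lit 19) C2_5 = true := by decide +kernel
def rf2_5 : rfCk (nat_lit 61) (nat_lit 9) (nat_lit 59) (nat_lit 19) (nat_lit 9) (nat_lit 0) (nat_lit 5) TL2 CL1 CL2 = true := by decide +kernel
def st2_5_0 : starCk (nat_lit 59) (nat_lit 19) (nat_lit 1) (nat_lit 9) (nat_lit 22) (nat_lit 51) (nat_lit 1) C2_5 = true := by decide +kernel
def sc2_5 : stCov (nat_lit 0) (nat_lit 51) (Rl.cons (nat_lit 51) (nat_lit 22) Rl.nil) C2_5 = true := by decide +kernel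
def wf2_6 : wfC (nat_lit 59) (nat_lit 19) C2_6 = true := by decide +kernel
def rf2_6 : rfCk (nat_lit 61) (nat_lit 9) (nat_lit 59) (nat_lit 19) (nat_lit 9) (nat_lit 0) (nat_lit 6) TL2 CL1 CL2 = true := by decide +kernel
def st2_6_0 : starCk (nat_lit 59) (nat_lit 19) (nat_lit 1) (nat_lit 9) (nat_lit 7) (nat_lit 58) (nat_lit 256) C2_6 = true := by decide +kernel
def sc2_6 : stCov (nat_lit 2) (nat_lit 58) (Rl.cons (nat_lit 58) (nat_lit 7) Rl.nil) C2_6 = true := by decide +kernel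
def wf2_8 : wfC (nat_lit 59) (nat_lit 19) C2_8 = true := by decide +kernel
def rf2_8 : rfCk (nat_lit 61) (nat_lit 9) (nat_lit 59) (nat_lit 19) (nat_lit 9) (nat_lit 0) (nat_lit 8) TL2 CL1 CL2 = true := by decide +kernel
def st2_8_0 : starCk (nat_lit 59) (nat_lit 19) (nat_lit 1) (nat_lit 9) (nat_lit 10) (nat_lit 29) (nat_lit 16) C2_8 = true := by decide +kernel
def sc2_8 : stCov (nat_lit 1) (nat_lit 29) (Rl.cons (nat_lit 29) (nat_lit 10) Rl.nil) C2_8 = true := by decide +kernel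
def wf2_17 : wfC (nat_lit 59) (nat_lit 19) C2_17 = true := by decide +kernel
def rf2_17 : rfCk (nat_lit 61) (nat_lit 9) (nat_lit 59) (nat_lit 19) (nat_lit 9) (nat_lit 0) (nat_lit 17) TL2 CL1 CL2 = true := by decide +kernel

end Pool.Agent.NNr.R11_1_2_4
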